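import Pool.Agent.H65.RaagRF

set_option autoImplicit false

namespace Pool.Agent.Results.MP_781439_al.Counterexample

open Pool.Agent.H65.Raag Subgroup

/-- `G` has a sharply `k`-transitive action on `(ℚ, <)` by order automorphisms. -/
def Sharp (G : Type) [Group G] (k : ℕ) : Prop :=
  ∃ ρ : G →* (ℚ ≃o ℚ), ∀ S T : Finset ℚ, S.card = k → T.card = k →
    ∃! g : G, S.image (ρ g) = T

/-- `G` is a direct product of two infinite groups. -/
def Splits (G : Type) [Group G] : Prop :=
  ∃ (H₁ H₂ : Type) (_ : Group H₁) (_ : Group H₂), Infinite H₁ ∧ Infinite H₂ ∧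
    Nonempty (G ≃* H₁ × H₂)

abbrev MZ := Multiplicative ℤ

theorem free_triv {H Ω : Type} [Group H] (hH : ∀ φ : H →* MZ, φ = 1) (f : H →* FreeGroup Ω) :
    f = 1 := by
  have hx : ∀ x : IsFreeGroup.Generators f.range, False := fun x => by
    let χ : f.range →* MZ := IsFreeGroup.lift fun _ => Multiplicative.ofAdd 1
    have h1 := hH (χ.comp f.rangeRestrict)
    obtain ⟨h, hh⟩ := f.rangeRestrict_surjective (IsFreeGroup.of x)
    have h2 := DFunLike.congr_fun h1 h
    rw [MonoidHom.comp_apply, hh] at h2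
    simp [χ] at h2
  have : f.range.subtype = 1 := IsFreeGroup.ext_hom fun x => (hx x).elim
  ext h
  exact DFunLike.congr_fun this ⟨f h, h, rfl⟩

variable {V : Type} {Γ : SimpleGraph V}

theorem kill {H : Type} [Group H] (hH : ∀ φ : H →* MZ, φ = 1) (f : H →* A Γ) (S : Finset V) :
    ∀ h, r (S : Set V) (f h) = 1 := by
  classical
  induction S using Finset.induction_on with
  | empty =>
    have : (r (Γ := Γ) ((∅ : Finset V) : Set V)) = 1 := by
      ext v
      simp [r_of]
    intro h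
    rw [this]; rfl
  | insert v T hv ih =>
    let B := (r (Γ := Γ) (T : Set V)).range
    let ρ : B →* B := ((r (Γ.neighborSet v)).comp B.subtype).codRestrict B (by
      rintro ⟨_, g, rfl⟩
      exact ⟨r (Γ.neighborSet v) g, by simp [r_r, Set.inter_comm]⟩)
    have hc : ∀ g : A Γ, Commute (r (Γ.neighborSet v) g) (PresentedGroup.of v) := by
      refine ind (by simp) (fun u => ?_) (fun g g' h h' => by simpa using h.mul_left h')
        fun g h => by simpa using h.inv_left
      rw [r_of]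
      split_ifs with h
      exacts [(comm h).symm, .one_left _]
    have h1 : ∀ t, Γ.Adj v t → Commute (SemidirectProduct.inl (φ := pact B (B ⧸ ρ.range))
        (FreeGroup.of ((1 : B) : B ⧸ ρ.range)))
        (SemidirectProduct.inr ⟨r T (PresentedGroup.of t), _, rfl⟩) := fun t ht => by
      refine (mul_inv_eq_iff_eq_mul.1 ?_).symm
      rw [← map_inv, ← SemidirectProduct.inl_aut, pact_of]
      congr 2
      refine (QuotientGroup.eq.2 (MonoidHom.mem_range.2
        ⟨⟨r T (PresentedGroup.of t), _, rfl⟩, Subtype.ext ?_⟩)).symm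
      by_cases h : t ∈ T <;> simp [ρ, r_of, h, ht]
    let Φ : A Γ →* FreeGroup (B ⧸ ρ.range) ⋊[pact B (B ⧸ ρ.range)] B :=
      lift (fun u => if u = v then SemidirectProduct.inl (FreeGroup.of ((1 : B) : B ⧸ ρ.range))
        else SemidirectProduct.inr ⟨r T (PresentedGroup.of u), _, rfl⟩) fun s t h => by
        split_ifs with hs ht ht
        · exact .refl _
        · exact h1 t (hs ▸ h)
        · exact (h1 s (ht ▸ h.symm)).symm
        · refine Commute.map (Subtype.ext ?_) _
          exact ((comm h).map (r (T : Set V))).eq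
    let F : B ⧸ ρ.range → A Γ := Quotient.lift (fun x : B => x.1 * PresentedGroup.of v * x.1⁻¹)
      fun x y h => by
        obtain ⟨k, hk⟩ := QuotientGroup.leftRel_apply.1 h
        have e : y.1 = x.1 * r (Γ.neighborSet v) k.1 := by
          rw [show r (Γ.neighborSet v) k.1 = (x⁻¹ * y).1 from congrArg Subtype.val hk]; simp
        rw [e, mul_assoc x.1 _ (PresentedGroup.of v), (hc _).eq]
        group
    let Ψ : FreeGroup (B ⧸ ρ.range) ⋊[pact B (B ⧸ ρ.range)] B →* A Γ :=
      SemidirectProduct.lift (FreeGroup.lift F) B.subtype fun g => by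
        ext ⟨x⟩
        simp only [MulEquiv.toMonoidHom_eq_coe, MonoidHom.comp_apply, MonoidHom.coe_coe, pact_of,
          FreeGroup.lift_apply_of, MulAut.conj_apply]
        change (g * x).1 * _ * (g * x).1⁻¹ = g.1 * (x.1 * _ * x.1⁻¹) * g.1⁻¹
        simp [mul_assoc]
    have key : Ψ.comp Φ = r ((insert v T : Finset V) : Set V) := by
      ext u
      by_cases h : u = v
      · subst h
        simp only [MonoidHom.comp_apply, Φ, Ψ, lift_of, if_true, SemidirectProduct.lift_inl,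
          FreeGroup.lift_apply_of, r_of, Finset.coe_insert, Set.mem_insert_iff, true_or]
        change (1 : B).1 * _ * (1 : B).1⁻¹ = _
        simp
      · simp [Φ, Ψ, h, r_of]
    have k2 : (B.subtype.comp SemidirectProduct.rightHom).comp Φ = r (T : Set V) := by
      ext u
      by_cases h : u = v
      · subst h
        simp [Φ, r_of, hv]
      · simp [Φ, h]
    have k3 : ∀ h, (Φ (f h)).right = 1 := fun h =>
      Subtype.ext ((DFunLike.congr_fun k2 (f h)).trans (ih h))
    let L : H →* FreeGroup (B ⧸ ρ.range) :=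
      { toFun := fun h => (Φ (f h)).left
        map_one' := by simp
        map_mul' := fun a b => by simp [k3] }
    intro h
    have k4 : (Φ (f h)).left = 1 := DFunLike.congr_fun (free_triv hH L) h
    have k5 : Φ (f h) = 1 := SemidirectProduct.ext k4 (k3 h)
    rw [← key, MonoidHom.comp_apply, k5, map_one]

theorem supp (g : A Γ) : ∃ S : Finset V, ∀ T : Set V, (S : Set V) ⊆ T → r T g = g := by
  classical
  refine ind (P := fun g => ∃ S : Finset V, ∀ T : Set V, (S : Set V) ⊆ T → r T g = g)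
    ⟨∅, by simp⟩ (fun v => ⟨{v}, fun T hT => ?_⟩) ?_ ?_ g
  · rw [r_of, if_pos (hT (by simp))]
  · rintro a b ⟨S, hS⟩ ⟨S', hS'⟩
    refine ⟨S ∪ S', fun T hT => ?_⟩
    rw [Finset.coe_union, Set.union_subset_iff] at hT
    rw [map_mul, hS T hT.1, hS' T hT.2]
  · rintro a ⟨S, hS⟩
    exact ⟨S, fun T hT => by rw [map_inv, hS T hT]⟩

theorem kill' {H : Type} [Group H] (hH : ∀ φ : H →* MZ, φ = 1) (f : H →* A Γ) (h : H) :
    f h = 1 := by
  obtain ⟨S, hS⟩ := supp (f h)
  rw [← hS S subset_rfl, kill hH]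

/-- complement of a ray -/
def Gr : SimpleGraph ℕ where
  Adj i j := i + 1 < j ∨ j + 1 < i
  symm := ⟨fun _ _ h => h.symm⟩
  loopless := ⟨fun _ h => by omega⟩

@[ext] structure He where
  x : ℤ
  y : ℤ
  z : ℤ

instance : Mul He := ⟨fun p q => ⟨p.x + q.x, p.y + q.y, p.z + q.z + p.x * q.y⟩⟩
instance : One He := ⟨⟨0, 0, 0⟩⟩
instance : Inv He := ⟨fun p => ⟨-p.x, -p.y, -p.z + p.x * p.y⟩⟩
@[simp] theorem mx (p q : He) : (p * q).x = p.x + q.x := rfl
@[simp] theorem my (p q : He) : (p * q).y = p.y + q.y := rfl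
@[simp] theorem mz (p q : He) : (p * q).z = p.z + q.z + p.x * q.y := rfl
@[simp] theorem ox : (1 : He).x = 0 := rfl
@[simp] theorem oy : (1 : He).y = 0 := rfl
@[simp] theorem oz : (1 : He).z = 0 := rfl
@[simp] theorem ix (p : He) : (p⁻¹).x = -p.x := rfl
@[simp] theorem iy (p : He) : (p⁻¹).y = -p.y := rfl
@[simp] theorem iz (p : He) : (p⁻¹).z = -p.z + p.x * p.y := rfl
instance : Group He := Group.ofLeftAxioms (fun p q s => by ext <;> simp <;> ring)
  (fun p => by ext <;> simp) (fun p => by ext <;> simp)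

noncomputable def ab : A Gr →* Multiplicative (ℕ →₀ ℤ) :=
  lift (fun i => Multiplicative.ofAdd (Finsupp.single i 1)) fun _ _ _ => mul_comm _ _

noncomputable def e (i : ℕ) (g : A Gr) : ℤ := (ab g).toAdd i

theorem e_mul (i : ℕ) (g h : A Gr) : e i (g * h) = e i g + e i h := by simp [e]
theorem e_of (i j : ℕ) : e i (PresentedGroup.of j) = if j = i then 1 else 0 := by
  simp [e, ab, Finsupp.single_apply]

def eta (i : ℕ) : A Gr →* He :=
  lift (fun j => ⟨if j = i then 1 else 0, if j = i + 1 then 1 else 0, 0⟩) fun s t h => by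
    have h' : s + 1 < t ∨ t + 1 < s := h
    show _ = _
    ext
    · simp [add_comm]
    · simp [add_comm]
    · simp only [mz]
      split_ifs <;> first | rfl | omega

theorem eta_e (i : ℕ) (g : A Gr) : (eta i g).x = e i g ∧ (eta i g).y = e (i + 1) g := by
  refine ind (P := fun g => (eta i g).x = e i g ∧ (eta i g).y = e (i + 1) g) ?_ ?_ ?_ ?_ g
  · simp [e]
  · intro v; simp [eta, e_of]
  · intro a b ha hb; simp [e_mul, ha, hb]
  · intro a ha; simpa [e] using ha

theorem det (i : ℕ) (g h : A Gr) (c : Commute g h) :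
    e i g * e (i + 1) h = e i h * e (i + 1) g := by
  have := congrArg He.z (c.map (eta i)).eq
  simp only [mz, (eta_e i _).1, (eta_e i _).2] at this
  linarith

theorem chi (χ : A Gr →* MZ) (g : A Gr) (h : ∀ i, e i g = 0) : χ g = 1 := by
  let L : (ℕ →₀ ℤ) →ₗ[ℤ] ℤ := Finsupp.linearCombination ℤ fun i => (χ (PresentedGroup.of i)).toAdd
  have : χ = (AddMonoidHom.toMultiplicative L.toAddMonoidHom).comp ab := by
    ext i
    simp [ab, L]
  have h2 : ab g = 1 := by
    apply Multiplicative.toAdd.injective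
    ext i; exact h i
  rw [this, MonoidHom.comp_apply, h2, map_one]

theorem side {H₁ H₂ : Type} [Group H₁] [Group H₂] (f₁ : H₁ →* A Gr) (f₂ : H₂ →* A Gr)
    (hc : ∀ a b, Commute (f₁ a) (f₂ b)) (hs : ∀ g, ∃ a b, g = f₁ a * f₂ b)
    (h0 : ∀ b, e 0 (f₂ b) = 0) : ∀ i b, e i (f₂ b) = 0 := by
  intro i
  induction i with
  | zero => exact h0
  | succ i ih =>
    intro b
    obtain ⟨a', b', h⟩ := hs (PresentedGroup.of i)
    have h1 := congrArg (e i) h
    rw [e_of, e_mul, ih, if_pos rfl, add_zero] at h1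
    have := det i _ _ (hc a' b)
    rw [← h1, ih] at this
    simpa using this

theorem side0 {H₁ H₂ : Type} [Group H₁] [Group H₂] (f₁ : H₁ →* A Gr) (f₂ : H₂ →* A Gr)
    (hc : ∀ a b, Commute (f₁ a) (f₂ b)) (hs : ∀ g, ∃ a b, g = f₁ a * f₂ b) :
    (∀ a, e 0 (f₁ a) = 0) ∨ ∀ b, e 0 (f₂ b) = 0 := by
  by_contra hh
  push Not at hh
  obtain ⟨⟨a, ha⟩, b, hb⟩ := hh
  obtain ⟨a', b', h⟩ := hs (PresentedGroup.of 1)
  have h1 := congrArg (e 0) h
  have h2 := congrArg (e 1) h
  rw [e_of, e_mul] at h1 h2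
  have d1 := det 0 _ _ (hc a b)
  have d2 := det 0 _ _ (hc a b')
  have d3 := det 0 _ _ (hc a' b)
  simp only [zero_add, one_ne_zero, if_false, if_true] at *
  apply mul_ne_zero ha hb
  linear_combination (e 0 (f₁ a) * e 0 (f₂ b)) * h2 - (e 0 (f₂ b) * e 1 (f₁ a)) * h1
    + e 0 (f₂ b) * d2 - e 0 (f₁ a) * d3 + e 0 (f₁ a') * d1

theorem no_split : ¬ Splits (A Gr) := by
  rintro ⟨H₁, H₂, _, _, i1, i2, ⟨E⟩⟩
  let f₁ : H₁ →* A Gr := E.symm.toMonoidHom.comp (MonoidHom.inl _ _)
  let f₂ : H₂ →* A Gr := E.symm.toMonoidHom.comp (MonoidHom.inr _ _)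
  have hc : ∀ a b, Commute (f₁ a) (f₂ b) := fun a b =>
    (MonoidHom.commute_inl_inr a b).map E.symm.toMonoidHom
  have hs : ∀ g, ∃ a b, g = f₁ a * f₂ b := fun g =>
    ⟨(E g).1, (E g).2, by simp [f₁, f₂, ← map_mul]⟩
  rcases side0 f₁ f₂ hc hs with h | h
  · have h2 := side f₂ f₁ (fun a b => (hc b a).symm) (fun g => by
      obtain ⟨a, b, h⟩ := hs g
      exact ⟨b, a, h.trans (hc a b).eq⟩) h
    obtain ⟨a, ha⟩ := exists_ne (1 : H₁)
    have := kill' (fun φ => by
      ext x
      simpa [f₁] using chi (φ.comp ((MonoidHom.fst _ _).comp E.toMonoidHom)) (f₁ x)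
        (fun i => h2 i x)) f₁ a
    exact ha (by simpa [f₁] using this)
  · have h2 := side f₁ f₂ hc hs h
    obtain ⟨a, ha⟩ := exists_ne (1 : H₂)
    have := kill' (fun φ => by
      ext x
      simpa [f₂] using chi (φ.comp ((MonoidHom.snd _ _).comp E.toMonoidHom)) (f₂ x)
        (fun i => h2 i x)) f₂ a
    exact ha (by simpa [f₂] using this)

theorem far (g : A Gr) : ∃ n, ∀ m, n ≤ m → Commute g (PresentedGroup.of m) := by
  refine ind (P := fun g => ∃ n, ∀ m, n ≤ m → Commute g (PresentedGroup.of m))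
    ⟨0, fun _ _ => .one_left _⟩ (fun v => ⟨v + 2, fun m hm => comm (Or.inl (by omega))⟩) ?_ ?_ g
  · rintro a b ⟨n, h⟩ ⟨n', h'⟩
    exact ⟨max n n', fun m hm => (h m (le_of_max_le_left hm)).mul_left
      (h' m (le_of_max_le_right hm))⟩
  · rintro a ⟨n, h⟩
    exact ⟨n, fun m hm => (h m hm).inv_left⟩

theorem no_sharp : ¬ Sharp (A Gr) 2 := by
  rintro ⟨ρ, h⟩
  have fix2 : ∀ (g : A Gr) (x y : ℚ), x ≠ y → ρ g x = x → ρ g y = y → g = 1 := by
    intro g x y hxy hx hy
    refine (h {x, y} {x, y} (Finset.card_pair hxy) (Finset.card_pair hxy)).unique ?_ ?_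
    · simp [hx, hy]
    · simp
  have mv : ∀ a b c d : ℚ, a < b → c < d → ∃ g, ρ g a = c ∧ ρ g b = d := by
    intro a b c d hab hcd
    obtain ⟨g, hg, -⟩ := h {a, b} {c, d} (Finset.card_pair hab.ne) (Finset.card_pair hcd.ne)
    have h1 : ρ g a ∈ ({c, d} : Finset ℚ) := hg ▸ Finset.mem_image_of_mem _ (by simp)
    have h2 : ρ g b ∈ ({c, d} : Finset ℚ) := hg ▸ Finset.mem_image_of_mem _ (by simp)
    have h3 := (ρ g).strictMono hab
    simp only [Finset.mem_insert, Finset.mem_singleton] at h1 h2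
    refine ⟨g, ?_⟩
    rcases h1 with h1 | h1 <;> rcases h2 with h2 | h2 <;> rw [h1, h2] at h3
    · exact absurd h3 (lt_irrefl _)
    · exact ⟨h1, h2⟩
    · exact absurd h3 hcd.not_gt
    · exact absurd h3 (lt_irrefl _)
  have cf : ∀ (g v : A Gr) (x : ℚ), g ≠ 1 → ρ g x = x → Commute g v → ρ v x = x := by
    intro g v x hg hx c
    by_contra hne
    refine hg (fix2 g _ _ hne ?_ hx)
    rw [← RelIso.mul_apply, ← map_mul, c.eq, map_mul, RelIso.mul_apply, hx]
  obtain ⟨g, g0, g1⟩ := mv 0 1 0 2 (by norm_num) (by norm_num)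
  obtain ⟨k, k0, k1⟩ := mv 0 1 (-1) 1 (by norm_num) (by norm_num)
  obtain ⟨n, hn⟩ := far g
  obtain ⟨n', hn'⟩ := far k
  have := fix2 (PresentedGroup.of (max n n')) 0 1 (by norm_num)
    (cf g _ 0 (by rintro rfl; norm_num at g1) g0 (hn _ (le_max_left _ _)))
    (cf k _ 1 (by rintro rfl; norm_num at k0) k1 (hn' _ (le_max_right _ _)))
  have h2 := congrArg (e (max n n')) this
  rw [e_of] at h2
  simp [e] at h2

theorem result : ∃ Γ : SimpleGraph ℕ, ¬ IsCyclic (A Γ) ∧ ¬ Splits (A Γ) ∧ ¬ Sharp (A Γ) 2 := by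
  refine ⟨Gr, fun h => ?_, no_split, no_sharp⟩
  letI := IsCyclic.commGroup (α := A Gr)
  have := det 0 (PresentedGroup.of 0) (PresentedGroup.of 1) (mul_comm _ _)
  simp [e_of] at this

end Pool.Agent.Results.MP_781439_al.Counterexample
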